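import Pool.Agent.Helper53_C4N.Base
import Pool.Agent.Helper53_C4W.Siz4
import Pool.Agent.Helper82_C4.Lla
import Pool.Agent.Helper86_C4.Asm
import Pool.Agent.Helper86_C4.Hst
import Pool.Agent.Helper86_C4.Koe
import Pool.Agent.Helper86_C4.Mrg
import Pool.Agent.Helper86_C4.Zro
import Pool.Agent.Helper58_C4.FloS
import Pool.Agent.Helper58_C4.Chf
import Pool.Agent.Helper58_C4.Zch
import Pool.Agent.Helper82_C4.Psh
import Pool.Agent.Helper31_C4.Loc
import Pool.Agent.Helper31_C4.Hdg
import Pool.Agent.Helper66_C4.Lft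

/-!
# BASE without hypotheses
-/

set_option autoImplicit false

namespace Pool.Agent.C4N.H53

open Pool.Agent.C4W

/-- the good labels exist -/
theorem llaF : LLAStmt :=
  H82.lla H31.loc H86.mrg (H31.hdg H58.chf) (H66.lft H58.chf H86.mrg) H86.zro siz

/-- good labels give classes -/
theorem asmF : ASMStmt := H86A.asm (H86.hst H82.psh H58.flo H86.koe)

/-- **BASE** (no hypotheses) -/
theorem baseF : BASEStmt := base (C4W.base llaF asmF) H58.zch

end Pool.Agent.C4N.H53
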