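import Pool.Agent.C4N.Stm
import Pool.Agent.Helper53_C4W.Out

/-!
# BASE: the base in the form of the main induction
-/

set_option autoImplicit false

open scoped BigOperators Classical

noncomputable section

namespace Pool.Agent.C4N.H53

open Finset
open Pool.Agent.C4W

lemma ev (a b : ℝ) (ha : 0 < a) : ∃ k0 : ℕ, ∀ k : ℕ, k0 ≤ k → b ≤ (k : ℝ) ^ a := by
  have h := ((tendsto_rpow_atTop ha).comp tendsto_natCast_atTop_atTop).eventually_ge_atTop b
  obtain ⟨k0, hk0⟩ := Filter.eventually_atTop.1 h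
  exact ⟨k0, fun k hk => hk0 k hk⟩

/-- numbers -/
structure Num (c : ℝ) (k : ℕ) : Prop where
  k16 : 16 ≤ k
  q1 : (k : ℝ) ^ (0.1525 : ℝ) + 1 ≤ (k : ℝ) ^ (0.1535 : ℝ)
  s2 : (k : ℝ) ^ (-0.4 : ℝ) ≤ 1 / 2
  s3 : 2 * (k : ℝ) ^ (0.01 : ℝ) ≤ (k : ℝ) ^ (1 - 1 / 400 : ℝ)
  d1 : 72 * (k : ℝ) ^ (0.461 : ℝ) + (k : ℝ) ^ (0.01 : ℝ) ≤ (k : ℝ) ^ (0.48 : ℝ)
  d2 : 2000 * (k : ℝ) ^ (-c) ≤ (k : ℝ) ^ (-(c / 2))

lemma num (c : ℝ) (hc : 0 < c) : ∃ k0 : ℕ, ∀ k : ℕ, k0 ≤ k → Num c k := by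
  obtain ⟨k1, h1⟩ := ev 0.001 2 (by norm_num)
  obtain ⟨k2, h2⟩ := ev 0.4 2 (by norm_num)
  obtain ⟨k3, h3⟩ := ev 0.9 2 (by norm_num)
  obtain ⟨k4, h4⟩ := ev 0.019 73 (by norm_num)
  obtain ⟨k5, h5⟩ := ev (c / 2) 2000 (by positivity)
  refine ⟨max 16 (max k1 (max k2 (max k3 (max k4 k5)))), fun k hk => ?_⟩
  simp only [max_le_iff] at hk
  obtain ⟨hk0, hk1, hk2, hk3, hk4, hk5⟩ := hk
  have hk0' : (16 : ℝ) ≤ k := by exact_mod_cast hk0
  have hkp : (0 : ℝ) < k := by linarith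
  have hk1' : (1 : ℝ) ≤ k := by linarith
  have e1 : ∀ a : ℝ, 0 ≤ a → (1 : ℝ) ≤ (k : ℝ) ^ a := fun a ha => Real.one_le_rpow hk1' ha
  refine ⟨hk0, ?_, ?_, ?_, ?_, ?_⟩
  · have a1 := h1 k hk1
    have a2 := e1 0.1525 (by norm_num)
    have a3 : (k : ℝ) ^ (0.1535 : ℝ) = (k : ℝ) ^ (0.1525 : ℝ) * (k : ℝ) ^ (0.001 : ℝ) := by
      rw [← Real.rpow_add hkp]; norm_num
    rw [a3]
    nlinarith
  · have a1 := h2 k hk2
    rw [Real.rpow_neg hkp.le, ← one_div]
    exact one_div_le_one_div_of_le (by norm_num) a1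
  · have a1 := h3 k hk3
    have a3 : (k : ℝ) ^ (1 - 1 / 400 : ℝ) = (k : ℝ) ^ (0.01 : ℝ) * (k : ℝ) ^ (0.9875 : ℝ) := by
      rw [← Real.rpow_add hkp]; norm_num
    have a4 : (k : ℝ) ^ (0.9 : ℝ) ≤ (k : ℝ) ^ (0.9875 : ℝ) :=
      Real.rpow_le_rpow_of_exponent_le hk1' (by norm_num)
    have a5 := e1 0.01 (by norm_num)
    rw [a3]
    nlinarith
  · have a1 := h4 k hk4
    have a3 : (k : ℝ) ^ (0.48 : ℝ) = (k : ℝ) ^ (0.461 : ℝ) * (k : ℝ) ^ (0.019 : ℝ) := by
      rw [← Real.rpow_add hkp]; norm_num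
    have a4 : (k : ℝ) ^ (0.01 : ℝ) ≤ (k : ℝ) ^ (0.461 : ℝ) :=
      Real.rpow_le_rpow_of_exponent_le hk1' (by norm_num)
    have a5 := e1 0.461 (by norm_num)
    rw [a3]
    nlinarith
  · have a1 := h5 k hk5
    have a3 : (k : ℝ) ^ (-(c / 2)) = (k : ℝ) ^ (-c) * (k : ℝ) ^ (c / 2) := by
      rw [← Real.rpow_add hkp]; congr 1; ring
    have a4 : 0 < (k : ℝ) ^ (-c) := Real.rpow_pos_of_pos hkp _
    rw [a3]
    nlinarith

variable {V : Type} [Fintype V]

/-- neighbours as a finite set -/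
def nb (N : SimpleGraph V) (x : V) : Finset V := univ.filter fun y => N.Adj x y

lemma mem_nb {N : SimpleGraph V} {x y : V} : y ∈ nb N x ↔ N.Adj x y := by
  unfold nb; rw [mem_filter]; exact and_iff_right (mem_univ _)

lemma card_nb (N : SimpleGraph V) (x : V) : (nb N x).card = dg N x := by
  unfold dg
  rw [← Set.ncard_coe_finset]
  congr 1
  ext y
  simp [nb]

lemma ncard_filter (N : SimpleGraph V) (x : V) (S : Finset V) :
    {y | N.Adj x y ∧ y ∈ S}.ncard = (nb N x ∩ S).card := by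
  rw [← Set.ncard_coe_finset]
  congr 1
  ext y
  simp [nb]

lemma isNbd {N : SimpleGraph V} (h : C4free N) : Pool.Agent.C4M.IsNbd (nb N) where
  symm := fun _ _ h => mem_nb.2 (mem_nb.1 h).symm
  irr := fun u h => (mem_nb.1 h).ne rfl
  c4 := by
    intro u v huv
    rw [card_le_one]
    intro x hx y hy
    rw [mem_inter] at hx hy
    exact h u v x y huv (mem_nb.1 hx.1) (mem_nb.1 hx.2) (mem_nb.1 hy.1) (mem_nb.1 hy.2)

/-- the prescribed sets -/
def fam (N : SimpleGraph V) (O : Fin 40 → Set (V × V)) : V ⊕ (Fin 40 × V × Bool) → Finset V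
  | Sum.inl x => nb N x
  | Sum.inr (g, x, true) => outN (O g) x
  | Sum.inr (g, x, false) => inN (O g) x

lemma mem_inN {A : Set (V × V)} {x y : V} : y ∈ inN A x ↔ (y, x) ∈ A := by
  unfold inN; rw [mem_filter]; exact and_iff_right (mem_univ _)

lemma card_block {M : ℕ} [Fact M.Prime] [NeZero M] (hM : 3 < M) {d : ZMod M}
    {I : Finset (ZMod M)} (hd : d ≠ 0) (hI : I = {d, 2 * d} ∨ I = {d, 2 * d, 4 * d}) :
    2 ≤ I.card ∧ I.card ≤ 3 := by
  have hn : ∀ n : ℕ, 0 < n → n < M → (n : ZMod M) * d ≠ 0 := by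
    intro n hn hnM h
    rcases mul_eq_zero.1 h with h | h
    · rw [ZMod.natCast_eq_zero_iff] at h
      exact absurd (Nat.le_of_dvd hn h) (by omega)
    · exact hd h
  have h1 : d ≠ 2 * d := by
    intro h
    refine hn 1 (by norm_num) (by omega) ?_
    push_cast
    linear_combination -h
  have h2 : d ≠ 4 * d := by
    intro h
    refine hn 3 (by norm_num) hM ?_
    push_cast
    linear_combination -h
  have h3 : 2 * d ≠ 4 * d := by
    intro h
    refine hn 2 (by norm_num) (by omega) ?_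
    push_cast
    linear_combination -h
  rcases hI with h | h
  · rw [h, card_pair h1]; norm_num
  · rw [h, card_insert_of_notMem (by simp [h1, h2]), card_pair h3]; norm_num

/-- BASE -/
theorem base (hO : OUTStmt) (hZ : ZCHStmt) : BASEStmt := by
  intro c hc hc'
  obtain ⟨k1, h1⟩ := hO c hc (by linarith)
  obtain ⟨k2, h2⟩ := hZ c hc (by linarith)
  obtain ⟨k3, h3⟩ := num c hc
  refine ⟨max k1 (max k2 k3), fun k s M hk hs hpr hMlo hMhi k' V _ N R O β m Q0 _ hB hQ => ?_⟩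
  simp only [max_le_iff] at hk
  obtain ⟨hk1, hk2, hk3⟩ := hk
  have hn := h3 k hk3
  have hk16 : (16 : ℝ) ≤ k := by exact_mod_cast hn.k16
  have hkp : (0 : ℝ) < k := by linarith
  have hk1' : (1 : ℝ) ≤ k := by linarith
  haveI : Fact M.Prime := ⟨hpr⟩
  haveI : NeZero M := ⟨hpr.ne_zero⟩
  -- parameters
  have hslo : (k : ℝ) ^ (1 - 1 / 400 : ℝ) ≤ s := by
    rw [hs]
    unfold ss
    exact (Real.rpow_le_rpow_of_exponent_le hk1' (by norm_num)).trans (Nat.le_ceil _)
  have hshi : s ≤ k := by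
    rw [hs]
    unfold ss
    rw [Nat.ceil_le]
    calc (k : ℝ) ^ (1 - 1 / 10000 : ℝ) ≤ (k : ℝ) ^ (1 : ℝ) :=
          Real.rpow_le_rpow_of_exponent_le hk1' (by norm_num)
      _ = k := Real.rpow_one _
  have hp : Par k M s ⌈(k : ℝ) ^ (0.1525 : ℝ)⌉₊ := {
    pr := hpr
    Mlo := (Real.rpow_le_rpow_of_exponent_le hk1' (by norm_num)).trans hMlo
    Mhi := hMhi
    slo := hslo
    shi := hshi
    qlo := Nat.le_ceil _
    qhi := (Nat.ceil_lt_add_one (by positivity)).le.trans hn.q1 }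
  have hM2 : 2 < M := hp.two_lt hn.k16
  have hM3 : 3 < M := by
    have h4 : (4 : ℝ) ≤ (k : ℝ) ^ (0.539 : ℝ) := by
      calc (4 : ℝ) = (16 : ℝ) ^ (1 / 2 : ℝ) := by
            rw [show (16 : ℝ) = 4 ^ (2 : ℝ) by norm_num, ← Real.rpow_mul (by norm_num)]
            norm_num
        _ ≤ (k : ℝ) ^ (1 / 2 : ℝ) := Real.rpow_le_rpow (by norm_num) hk16 (by norm_num)
        _ ≤ (k : ℝ) ^ (0.539 : ℝ) :=
            Real.rpow_le_rpow_of_exponent_le (by linarith) (by norm_num)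
    have h5 : (3 : ℝ) < M := by linarith
    exact_mod_cast h5
  have hMp : (0 : ℝ) < M := by exact_mod_cast hpr.pos
  obtain ⟨B, I, hB0, hBd, hBc⟩ := blk M hM2
  have hI : ∀ d ∈ B, 2 ≤ (I d).card ∧ (I d).card ≤ 3 := fun d hd =>
    card_block hM3 (hB0 d hd).1 (hB0 d hd).2
  -- sizes
  have hsp : (0 : ℝ) < s := lt_of_lt_of_le (by positivity) hslo
  have hreg : ∀ g x, (s : ℝ) / 2 ≤ (outN (O g) x).card ∧ ((outN (O g) x).card : ℝ) ≤ 2 * s ∧
      (s : ℝ) / 2 ≤ (inN (O g) x).card ∧ ((inN (O g) x).card : ℝ) ≤ 2 * s := by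
    intro g x
    have a1 := (hB.reg g x).1
    have a2 := (hB.reg g x).2
    rw [abs_le] at a1 a2
    have a3 : (s : ℝ) * (k : ℝ) ^ (-0.4 : ℝ) ≤ s / 2 := by
      have := mul_le_mul_of_nonneg_left hn.s2 hsp.le
      linarith
    refine ⟨by linarith, by linarith, by linarith, by linarith⟩
  have hs01 : (k : ℝ) ^ (0.01 : ℝ) ≤ s / 2 := by
    have := hn.s3
    linarith
  have hnb : ∀ x, ((nb N x).card : ℝ) ≤ 2 * k := by
    intro x
    rw [card_nb]
    exact_mod_cast hB.dgN x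
  have hOnb : ∀ g x, outN (O g) x ⊆ nb N x := fun g x y hy =>
    mem_nb.2 (hB.sub (x, y) (Or.inr ⟨g, mem_outN.1 hy⟩))
  have hInb : ∀ g x, inN (O g) x ⊆ nb N x := fun g x y hy =>
    mem_nb.2 (hB.sub (y, x) (Or.inr ⟨g, mem_inN.1 hy⟩)).symm
  have hF1 : ∀ i, (k : ℝ) ^ (0.01 : ℝ) ≤ (fam N O i).card ∧ (fam N O i).card ≤ k ^ 2 := by
    have key : ∀ F : Finset V, ∀ x, F ⊆ nb N x → (s : ℝ) / 2 ≤ F.card →
        (k : ℝ) ^ (0.01 : ℝ) ≤ F.card ∧ F.card ≤ k ^ 2 := by
      intro F x hF hs'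
      refine ⟨hs01.trans hs', ?_⟩
      have a1 : (F.card : ℝ) ≤ 2 * k := le_trans (by exact_mod_cast card_le_card hF) (hnb x)
      have a2 : (F.card : ℝ) ≤ (k : ℝ) ^ 2 := by nlinarith
      exact_mod_cast a2
    rintro (x | ⟨g, x, b⟩)
    · refine key _ x (Subset.refl _) ?_
      exact (hreg 0 x).1.trans (by exact_mod_cast card_le_card (hOnb 0 x))
    · cases b
      · exact key _ x (hInb g x) (hreg g x).2.2.1
      · exact key _ x (hOnb g x) (hreg g x).1
  have hF2 : ∀ v, (univ.filter fun i => v ∈ fam N O i).card ≤ k ^ 10 := by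
    intro v
    have a1 : (univ.filter fun i => v ∈ fam N O i) ⊆
        (nb N v).disjSum ((univ : Finset (Fin 40)) ×ˢ (nb N v) ×ˢ (univ : Finset Bool)) := by
      intro i hi
      rw [mem_filter] at hi
      rcases i with x | ⟨g, x, b⟩
      · rw [inl_mem_disjSum]
        exact mem_nb.2 (mem_nb.1 hi.2).symm
      · rw [inr_mem_disjSum, mem_product, mem_product]
        refine ⟨mem_univ _, ?_, mem_univ _⟩
        cases b
        · exact mem_nb.2 (mem_nb.1 (hInb g x hi.2)).symm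
        · exact mem_nb.2 (mem_nb.1 (hOnb g x hi.2)).symm
    refine (card_le_card a1).trans ?_
    rw [card_disjSum, card_product, card_product, card_univ, card_univ, Fintype.card_fin,
      Fintype.card_bool, card_nb]
    have a2 := hB.dgN v
    have a3 : 16 ≤ k := hn.k16
    have a4 : 162 * k ≤ k ^ 10 := by
      calc 162 * k ≤ 16 ^ 9 * k := Nat.mul_le_mul_right _ (by norm_num)
        _ ≤ k ^ 9 * k := Nat.mul_le_mul_right _ (Nat.pow_le_pow_left a3 9)
        _ = k ^ 10 := by ring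
    omega
  obtain ⟨Zp, Zm, hZd, hZQ, hZpm, hZz, hZF, hZF'⟩ := h2 k M s _ hk2 hp V O B I Q0 _ (fam N O) hI
    hB.reg hQ hF1 hF2
  -- the input
  let X : BIn V M := {
    R := R
    O := O
    β := β
    m := m
    B := B
    I := I
    Zp := Zp
    Zm := Zm }
  have hMe : ∀ g, (M : ℝ) * ((m g : ℝ) - eps c k M) = M * (m g : ℝ) - (k : ℝ) ^ (-c) := by
    intro g
    unfold eps
    field_simp
  have hX : X.Ok c k s k' (nb N) := {
    nbd := isNbd hB.c4
    sub := by
      intro p hp'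
      refine mem_nb.2 (hB.sub p ?_)
      rcases hp' with h | h
      · exact Or.inl h
      · exact Or.inr (Set.mem_iUnion.1 h)
    deg := hB.deg
    dRO := hB.dRO
    dOO := hB.dOO
    reg := hB.reg
    β := hB.bet
    r0 := hB.r0
    row0 := by
      intro x
      show |((outN R x).card : ℝ) + ∑ y ∈ outN (O 0) x, β 0 x y - M * (m 0 - eps c k M)| ≤ _
      rw [hMe]; exact hB.row0 x
    col0 := by
      intro x
      show |((inN R x).card : ℝ) + ∑ y ∈ inN (O 0) x, β 0 y x - M * (m 0 - eps c k M)| ≤ _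
      rw [hMe]; exact hB.col0 x
    row := by
      intro g hg x
      show |k' / (M : ℝ) ^ (g : ℕ) + ∑ y ∈ outN (O g) x, β g x y - M * (m g - eps c k M)| ≤ _
      rw [hMe]; exact hB.row g hg x
    col := by
      intro g hg x
      show |k' / (M : ℝ) ^ (g : ℕ) + ∑ y ∈ inN (O g) x, β g y x - M * (m g - eps c k M)| ≤ _
      rw [hMe]; exact hB.col g hg x
    B0 := hB0
    Bd := hBd
    Bc := hBc
    Z := hZd }
  obtain ⟨f, ho, hf⟩ := h1 k M s _ hk1 hp V (nb N) k' X hX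
  have hcp : 0 < (k : ℝ) ^ (-c) := Real.rpow_pos_of_pos hkp _
  have hZsub : ∀ i, Zp (ho i).1 (ho i).2 ∪ Zm (ho i).1 (ho i).2 ⊆
      univ.filter fun v => ∃ g, ∃ d ∈ B, v ∈ Zp g d ∨ v ∈ Zm g d := by
    intro i v hv
    rw [mem_union] at hv
    exact mem_filter.2 ⟨mem_univ _, _, _, hf.hB i, hv⟩
  refine ⟨_, f, univ.filter fun v => ∃ g, ∃ d ∈ B, v ∈ Zp g d ∨ v ∈ Zm g d,
    fun i => Zp (ho i).1 (ho i).2 ∪ Zm (ho i).1 (ho i).2, ?_, ?_⟩
  · exact {
      nn := rfl
      inj := hf.inj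
      arc := by
        intro i x y h
        rcases hf.sub i x y h with h | h
        · exact Or.inl h
        · exact Or.inr (Set.mem_iUnion.1 h)
      cov := fun p hp' => hf.all p.1 p.2 hp'
      dis := hf.dis
      len := hf.cyc
      dom := by
        intro i x hx
        rw [mem_union, not_or] at hx
        exact ⟨Option.ne_none_iff_exists'.1 (hf.out i x hx.1), hf.inn i x hx.2⟩
      sub := hZsub
      one := by
        intro x
        have a1 : ∀ i, f i x = none → x ∈ Zp (ho i).1 (ho i).2 := by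
          intro i hi
          by_contra hx
          exact hf.out i x hx hi
        have a2 : ∀ i, (∀ y, f i y ≠ some x) → x ∈ Zm (ho i).1 (ho i).2 := by
          intro i hi
          by_contra hx
          obtain ⟨y, hy⟩ := hf.inn i x hx
          exact hi y hy
        have b1 : (univ.filter fun i => f i x = none).card ≤ 1 := by
          rw [card_le_one]
          intro i hi i' hi'
          rw [mem_filter] at hi hi'
          refine hf.out1 i i' x hi.2 hi'.2 ?_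
          by_contra hne
          have hne' : (ho i).1 ≠ (ho i').1 ∨ (ho i).2 ≠ (ho i').2 := by
            by_contra hcon
            push Not at hcon
            exact hne (Prod.ext hcon.1 hcon.2)
          exact disjoint_left.1 (hZz _ _ _ _ hne').1 (a1 i hi.2) (a1 i' hi'.2)
        have b2 : (univ.filter fun i => ∀ y, f i y ≠ some x).card ≤ 1 := by
          rw [card_le_one]
          intro i hi i' hi'
          rw [mem_filter] at hi hi'
          refine hf.inn1 i i' x hi.2 hi'.2 ?_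
          by_contra hne
          have hne' : (ho i).1 ≠ (ho i').1 ∨ (ho i).2 ≠ (ho i').2 := by
            by_contra hcon
            push Not at hcon
            exact hne (Prod.ext hcon.1 hcon.2)
          exact disjoint_left.1 (hZz _ _ _ _ hne').2 (a2 i hi.2) (a2 i' hi'.2)
        by_contra hcon
        have b3 : 0 < (univ.filter fun i => f i x = none).card := by omega
        have b4 : 0 < (univ.filter fun i => ∀ y, f i y ≠ some x).card := by omega
        obtain ⟨i, hi⟩ := card_pos.1 b3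
        obtain ⟨i', hi'⟩ := card_pos.1 b4
        rw [mem_filter] at hi hi'
        exact disjoint_left.1 (hZpm _ _ _ _) (a1 i hi.2) (a2 i' hi'.2)
      d1 := by
        intro i x
        rw [ncard_filter]
        have a1 := hZF' (Sum.inl x) (ho i).1 (ho i).2 (hf.hB i)
        have a2 : ((I (ho i).2).card : ℝ) ≤ 3 := by exact_mod_cast (hI _ (hf.hB i)).2
        have a3 := hnb x
        have a4 : (k : ℝ) ^ (-c) ≤ 1 := Real.rpow_le_one_of_one_le_of_nonpos hk1' (by linarith)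
        have a5 : eps c k M ≤ (k : ℝ) ^ (-0.539 : ℝ) := by
          unfold eps
          rw [div_le_iff₀ hMp]
          calc (k : ℝ) ^ (-c) ≤ 1 := a4
            _ = (k : ℝ) ^ (-0.539 : ℝ) * (k : ℝ) ^ (0.539 : ℝ) := by
                rw [← Real.rpow_add hkp]; norm_num
            _ ≤ (k : ℝ) ^ (-0.539 : ℝ) * M := by gcongr
        have a6 : 0 ≤ eps c k M := by unfold eps; positivity
        have a7 : zet c k M (I (ho i).2).card ≤ 6 * (k : ℝ) ^ (-0.539 : ℝ) := by
          unfold zet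
          have := mul_le_mul a2 a5 a6 (by norm_num : (0 : ℝ) ≤ 3)
          linarith
        have a8 : 0 ≤ (k : ℝ) ^ (-0.539 : ℝ) := by positivity
        calc ((nb N x ∩ (Zp (ho i).1 (ho i).2 ∪ Zm (ho i).1 (ho i).2)).card : ℝ)
            ≤ 6 * zet c k M (I (ho i).2).card * (nb N x).card + (k : ℝ) ^ (0.01 : ℝ) := a1
          _ ≤ 6 * (6 * (k : ℝ) ^ (-0.539 : ℝ)) * (2 * k) + (k : ℝ) ^ (0.01 : ℝ) := by
              gcongr
          _ = 72 * (k : ℝ) ^ (0.461 : ℝ) + (k : ℝ) ^ (0.01 : ℝ) := by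
              have : (k : ℝ) ^ (0.461 : ℝ) = (k : ℝ) ^ (-0.539 : ℝ) * k := by
                nth_rw 3 [← Real.rpow_one (k : ℝ)]
                rw [← Real.rpow_add hkp]; norm_num
              rw [this]; ring
          _ ≤ (k : ℝ) ^ (0.48 : ℝ) := hn.d1
      d2 := by
        intro x
        rw [ncard_filter]
        have a1 := hZF (Sum.inl x)
        have a3 := hnb x
        calc ((nb N x ∩ univ.filter fun v => ∃ g, ∃ d ∈ B, v ∈ Zp g d ∨ v ∈ Zm g d).card : ℝ)
            ≤ 1000 * (k : ℝ) ^ (-c) * (nb N x).card := a1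
          _ ≤ 1000 * (k : ℝ) ^ (-c) * (2 * k) := by gcongr
          _ = (2000 * (k : ℝ) ^ (-c)) * k := by ring
          _ ≤ (k : ℝ) ^ (-(c / 2)) * k := by gcongr; exact hn.d2
          _ = (k : ℝ) ^ (1 - c / 2) := by
              nth_rw 2 [← Real.rpow_one (k : ℝ)]
              rw [← Real.rpow_add hkp]; congr 1; ring
      d3 := by
        intro g x
        have key : ∀ F : Finset V, ((F ∩ univ.filter fun v => ∃ g, ∃ d ∈ B,
            v ∈ Zp g d ∨ v ∈ Zm g d).card : ℝ) ≤ 1000 * (k : ℝ) ^ (-c) * F.card →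
            (F.card : ℝ) ≤ 2 * s → ((F ∩ univ.filter fun v => ∃ g, ∃ d ∈ B,
            v ∈ Zp g d ∨ v ∈ Zm g d).card : ℝ) ≤ s * (k : ℝ) ^ (-(c / 2)) := by
          intro F a1 a2
          calc _ ≤ 1000 * (k : ℝ) ^ (-c) * F.card := a1
            _ ≤ 1000 * (k : ℝ) ^ (-c) * (2 * s) := by gcongr
            _ = s * (2000 * (k : ℝ) ^ (-c)) := by ring
            _ ≤ s * (k : ℝ) ^ (-(c / 2)) := by gcongr; exact hn.d2
        exact ⟨key _ (hZF (Sum.inr (g, x, true))) (hreg g x).2.1,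
          key _ (hZF (Sum.inr (g, x, false))) (hreg g x).2.2.2⟩ }
  · rw [disjoint_left]
    intro v hv hq
    rw [mem_filter] at hv
    obtain ⟨_, g, d, hd, h | h⟩ := hv
    · exact disjoint_left.1 (hZQ g d).1 h hq
    · exact disjoint_left.1 (hZQ g d).2 h hq

end Pool.Agent.C4N.H53
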